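import Mathlib

set_option autoImplicit false

/-!
Definitions for the comparison of the bigraded Tor-algebra of the face ring of a simple polytope
with its (real) Buchstaber number.
-/

open MvPolynomial

namespace Pool.Agent.H250R3.Bet

/-- A simple polytope `{x | ∀ i, ⟨a i, x⟩ ≤ b i}` in `ℝⁿ` with exactly `m` facets. -/
structure SimplePolytope (n m : ℕ) where
  /-- outer normal vectors of the facets -/
  a : Fin m → (Fin n → ℝ)
  /-- right hand sides -/
  b : Fin m → ℝ
  /-- the polyhedron is bounded -/
  bounded : ∃ C : ℝ, ∀ x : Fin n → ℝ, (∀ i, a i ⬝ᵥ x ≤ b i) → ∀ l, |x l| ≤ C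
  /-- it has an interior point -/
  interior : ∃ x : Fin n → ℝ, ∀ i, a i ⬝ᵥ x < b i
  /-- each inequality defines a facet: some point lies on the `i`-th hyperplane only -/
  facet : ∀ i, ∃ x : Fin n → ℝ, a i ⬝ᵥ x = b i ∧ ∀ j, j ≠ i → a j ⬝ᵥ x < b j
  /-- simplicity: no point lies on more than `n` facets -/
  simple : ∀ x : Fin n → ℝ, (∀ i, a i ⬝ᵥ x ≤ b i) → {i | a i ⬝ᵥ x = b i}.ncard ≤ n

/-- The simplicial complex `K_P`: a set of facets is a simplex iff the facets have a common
point. -/
def SimplePolytope.K {n m : ℕ} (P : SimplePolytope n m) : Set (Finset (Fin m)) :=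
  {σ | ∃ x : Fin n → ℝ, (∀ i, P.a i ⬝ᵥ x ≤ P.b i) ∧ ∀ i ∈ σ, P.a i ⬝ᵥ x = P.b i}

section Clifford

variable {R M : Type*} [CommRing R] [AddCommGroup M] [Module R M] {Q : QuadraticForm R M}
  (d : Module.Dual R M)

lemma contract_mul (x y : CliffordAlgebra Q) : CliffordAlgebra.contractLeft d (x * y) =
    CliffordAlgebra.contractLeft d x * y +
      CliffordAlgebra.involute x * CliffordAlgebra.contractLeft d y := by
  induction x using CliffordAlgebra.left_induction with
  | algebraMap r =>
    simp only [CliffordAlgebra.contractLeft_algebraMap_mul,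
      CliffordAlgebra.contractLeft_algebraMap, zero_mul, zero_add, AlgHom.commutes]
  | add x z hx hz => simp only [add_mul, map_add, hx, hz]; abel
  | ι_mul x v hx =>
    rw [mul_assoc, CliffordAlgebra.contractLeft_ι_mul, hx, CliffordAlgebra.contractLeft_ι_mul,
      map_mul, CliffordAlgebra.involute_ι, sub_mul, smul_mul_assoc]
    simp only [mul_add, neg_mul, mul_assoc]
    abel

lemma contract_involute (x : CliffordAlgebra Q) :
    CliffordAlgebra.contractLeft d (CliffordAlgebra.involute x) =
      - CliffordAlgebra.involute (CliffordAlgebra.contractLeft d x) := by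
  induction x using CliffordAlgebra.left_induction with
  | algebraMap r =>
    simp only [AlgHom.commutes, CliffordAlgebra.contractLeft_algebraMap, map_zero, neg_zero]
  | add x z hx hz => simp only [map_add, hx, hz, neg_add]
  | ι_mul x v hx =>
    rw [map_mul, CliffordAlgebra.involute_ι, neg_mul, map_neg,
      CliffordAlgebra.contractLeft_ι_mul, hx, CliffordAlgebra.contractLeft_ι_mul, map_sub,
      map_smul, map_mul, CliffordAlgebra.involute_ι]
    simp only [mul_neg, neg_mul]

end Clifford

section Koszul

universe u

/-- contraction of the exterior algebra with a linear form `f`: the antiderivation over `R` that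
is `f` on `M` -/
noncomputable def extContract {R : Type u} [CommRing R] {M : Type u} [AddCommGroup M] [Module R M]
    (f : Module.Dual R M) (x : ExteriorAlgebra R M) : ExteriorAlgebra R M :=
  CliffordAlgebra.contractLeft f x

/-- the product of the elements `e_i`, `i ∈ J`, in increasing order, in the exterior algebra -/
noncomputable def extMonomial (R : Type u) [CommRing R] {M : Type u} [AddCommGroup M] [Module R M]
    {m : ℕ} (e : Fin m → M) (J : Finset (Fin m)) : ExteriorAlgebra R M :=
  ((J.sort (· ≤ ·)).map (fun i => ExteriorAlgebra.ι R (e i))).prod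

/-- The exterior algebra over `R` of the free module with basis `u_1, …, u_m`. -/
def KAlg (R : Type u) [CommRing R] (m : ℕ) : Type u := ExteriorAlgebra R (Fin m → R)

/-- instance -/
noncomputable def kAlg_ring (R : Type u) [CommRing R] (m : ℕ) : Ring (KAlg R m) :=
  (inferInstance : Ring (ExteriorAlgebra R (Fin m → R)))

attribute [instance] kAlg_ring

/-- instance -/
noncomputable def kAlg_algebra (k : Type u) (R : Type u) [CommRing k] [CommRing R]
    [Algebra k R] (m : ℕ) : Algebra k (KAlg R m) :=
  (inferInstance : Algebra k (ExteriorAlgebra R (Fin m → R)))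

attribute [instance] kAlg_algebra

variable (k : Type u) {R : Type u} [Field k] [CommRing R] [Algebra k R] {m : ℕ} (v : Fin m → R)

/-- the linear form `u_i ↦ v_i` -/
noncomputable def vform : Module.Dual R (Fin m → R) := ∑ i, v i • LinearMap.proj i

/-- The Koszul differential of the exterior algebra over `R` of the free module with basis
`u_1, …, u_m`: the antiderivation over `R` with `d u_i = v_i`. -/
noncomputable def dK (x : KAlg R m) : KAlg R m := extContract (vform v) x

/-- the element `v^α u_J` of the Koszul algebra -/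
noncomputable def mono (α : Fin m →₀ ℕ) (J : Finset (Fin m)) : KAlg R m :=
  (∏ i, v i ^ α i) • (extMonomial R (fun i => Pi.single i (1 : R)) J : KAlg R m)

/-- The component of bidegree `(-i, 2j)` of the Koszul algebra, where `u_l` has bidegree
`(-1, 2)` and `v_l` has bidegree `(0, 2)`: the span over `k` of the `v^α u_J` with `|J| = i` and
`|α| + |J| = j`. -/
noncomputable def koszulBi (i j : ℕ) : Submodule k (KAlg R m) :=
  Submodule.span k {x | ∃ (J : Finset (Fin m)) (α : Fin m →₀ ℕ),
    J.card = i ∧ α.degree + J.card = j ∧ x = mono v α J}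

/-- the grading involution -/
noncomputable def invK (x : KAlg R m) : KAlg R m :=
  CliffordAlgebra.involute (Q := (0 : QuadraticForm R (Fin m → R))) x

lemma dK_mul (x y : KAlg R m) : dK v (x * y) = dK v x * y + invK x * dK v y :=
  contract_mul (Q := (0 : QuadraticForm R (Fin m → R))) _ _ _

lemma dK_add (x y : KAlg R m) : dK v (x + y) = dK v x + dK v y :=
  map_add (CliffordAlgebra.contractLeft (Q := (0 : QuadraticForm R (Fin m → R))) (vform v)) x y

lemma dK_zero : dK v 0 = 0 :=
  map_zero (CliffordAlgebra.contractLeft (Q := (0 : QuadraticForm R (Fin m → R))) (vform v))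

lemma invK_zero : invK (0 : KAlg R m) = 0 :=
  map_zero (CliffordAlgebra.involute (Q := (0 : QuadraticForm R (Fin m → R))))

lemma invK_invK (x : KAlg R m) : invK (invK x) = x :=
  CliffordAlgebra.involute_involute (Q := (0 : QuadraticForm R (Fin m → R))) x

lemma dK_invK (x : KAlg R m) : dK v (invK x) = - invK (dK v x) :=
  contract_involute (Q := (0 : QuadraticForm R (Fin m → R))) _ _

lemma dK_algebraMap (r : k) : dK v (algebraMap k (KAlg R m) r) = 0 :=
  CliffordAlgebra.contractLeft_algebraMap (Q := (0 : QuadraticForm R (Fin m → R))) _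
    (algebraMap k R r)

/-- the algebra of cycles -/
noncomputable def cycles : Subalgebra k (KAlg R m) where
  carrier := {x | dK v x = 0}
  mul_mem' := by
    intro x y hx hy
    change dK v (x * y) = 0
    rw [dK_mul, show dK v x = 0 from hx, show dK v y = 0 from hy, zero_mul, mul_zero, add_zero]
  add_mem' := by
    intro x y hx hy
    change dK v (x + y) = 0
    rw [dK_add, show dK v x = 0 from hx, show dK v y = 0 from hy, add_zero]
  algebraMap_mem' := dK_algebraMap k v

/-- the type of cycles -/
def Cyc : Type u := cycles k v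

/-- instance -/
noncomputable def cyc_ring : Ring (Cyc k v) := Subalgebra.toRing (cycles k v)

attribute [instance] cyc_ring

/-- instance -/
noncomputable def cyc_algebra : Algebra k (Cyc k v) := Subalgebra.algebra (cycles k v)

attribute [instance] cyc_algebra

/-- a cycle as an element of the Koszul algebra -/
def Cyc.val (x : Cyc k v) : KAlg R m := Subtype.val x

/-- the ideal of boundaries in the algebra of cycles -/
noncomputable def boundaries : Ideal (Cyc k v) where
  carrier := {x | ∃ y, dK v y = x.val}
  zero_mem' := ⟨0, dK_zero v⟩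
  add_mem' := by
    rintro x y ⟨a, ha⟩ ⟨b, hb⟩
    exact ⟨a + b, by rw [dK_add, ha, hb]; rfl⟩
  smul_mem' := by
    rintro ⟨c, hc⟩ ⟨x, hx⟩ ⟨a, ha⟩
    refine ⟨invK c * a, ?_⟩
    have hc' : dK v c = 0 := hc
    rw [dK_mul, dK_invK, hc', invK_zero, neg_zero, zero_mul, zero_add, invK_invK, ha]
    rfl

instance boundaries_twoSided : (boundaries k v).IsTwoSided where
  mul_mem_of_left := by
    rintro ⟨x, hx⟩ ⟨c, hc⟩ ⟨a, ha⟩
    refine ⟨a * c, ?_⟩
    have hc' : dK v c = 0 := hc
    rw [dK_mul, hc', mul_zero, add_zero, ha]
    rfl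

/-- The homology algebra of the Koszul algebra: cycles modulo boundaries. -/
def KoszulHomology : Type u := Cyc k v ⧸ boundaries k v

/-- instance -/
noncomputable def koszulHomology_ring : Ring (KoszulHomology k v) :=
  Ideal.Quotient.ring (boundaries k v)

attribute [instance] koszulHomology_ring

/-- instance -/
noncomputable def koszulHomology_algebra : Algebra k (KoszulHomology k v) :=
  Ideal.Quotient.algebra k (I := boundaries k v)

attribute [instance] koszulHomology_algebra

/-- the class of a cycle -/
noncomputable def cls (x : Cyc k v) : KoszulHomology k v :=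
  Ideal.Quotient.mk (boundaries k v) x

/-- The component of bidegree `(-i, 2j)` of the homology: the span of the classes of the cycles of
bidegree `(-i, 2j)`. -/
noncomputable def homologyBi (i j : ℕ) : Submodule k (KoszulHomology k v) :=
  Submodule.span k {y | ∃ x : Cyc k v, x.val ∈ koszulBi k v i j ∧ y = cls k v x}

end Koszul

section Face

universe u

variable (k : Type u) [Field k] {m : ℕ} (K : Set (Finset (Fin m)))

/-- Stanley-Reisner ideal -/
noncomputable def srIdeal : Ideal (MvPolynomial (Fin m) k) :=
  Ideal.span {p | ∃ σ : Finset (Fin m), σ ∉ K ∧ p = ∏ i ∈ σ, X i}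

/-- The face ring (Stanley-Reisner ring) `k[K]`. -/
def FaceRing : Type u := MvPolynomial (Fin m) k ⧸ srIdeal k K

/-- instance -/
noncomputable def faceRing_commRing : CommRing (FaceRing k K) :=
  Ideal.Quotient.commRing (srIdeal k K)

attribute [instance] faceRing_commRing

/-- instance -/
noncomputable def faceRing_algebra : Algebra k (FaceRing k K) :=
  Ideal.Quotient.algebra k (I := srIdeal k K)

attribute [instance] faceRing_algebra

/-- the class `v_i` of the variable -/
noncomputable def faceVar (i : Fin m) : FaceRing k K := Ideal.Quotient.mk (srIdeal k K) (X i)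

/-- The algebra `Tor_{k[v_1,…,v_m]}(k[K], k)`, computed by the Koszul resolution of `k`: the
homology algebra of the Koszul algebra `(Λ[u_1,…,u_m] ⊗ k[K], d u_i = v_i)`. -/
abbrev TorAlg : Type u := KoszulHomology k (faceVar k K)

/-- The bigraded component `Tor^{-i, 2j}`. -/
noncomputable def TorBi (i j : ℕ) : Submodule k (TorAlg k K) := homologyBi k (faceVar k K) i j

/-- The bigraded Betti number `β^{-i, 2j}(K)`. -/
noncomputable def betti (i j : ℕ) : ℕ := Module.finrank k (TorBi k K i j)

end Face

section Torus

variable {m : ℕ} (K : Set (Finset (Fin m)))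

/-- the moment-angle complex -/
def momentAngle : Set (Fin m → ℂ) :=
  {z | ∃ σ ∈ K, ∀ i, (i ∈ σ → ‖z i‖ ≤ 1) ∧ (i ∉ σ → ‖z i‖ = 1)}

/-- the real moment-angle complex -/
def realMomentAngle : Set (Fin m → ℝ) :=
  {x | ∃ σ ∈ K, ∀ i, (i ∈ σ → |x i| ≤ 1) ∧ (i ∉ σ → |x i| = 1)}

/-- The dimensions `r` of the toric subgroups of `T^m` (images of injective continuous
homomorphisms `T^r → T^m`) acting freely on the moment-angle complex. -/
def toricRanks : Set ℕ :=
  {r | ∃ φ : (Fin r → Circle) →* (Fin m → Circle), Continuous φ ∧ Function.Injective φ ∧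
    ∀ t, ∀ z ∈ momentAngle K, (∀ i, (φ t i : ℂ) * z i = z i) → φ t = 1}

/-- The ranks `r` of the subgroups of `(ℤ/2)^m` (images of injective homomorphisms
`(ℤ/2)^r → (ℤ/2)^m`) acting freely on the real moment-angle complex. -/
def realRanks : Set ℕ :=
  {r | ∃ φ : (Fin r → ℤˣ) →* (Fin m → ℤˣ), Function.Injective φ ∧
    ∀ t, ∀ x ∈ realMomentAngle K, (∀ i, (((φ t i : ℤˣ) : ℤ) : ℝ) * x i = x i) → φ t = 1}

/-- the Buchstaber invariant -/
noncomputable def buchstaber : ℕ := sSup (toricRanks K)

/-- the real Buchstaber invariant -/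
noncomputable def realBuchstaber : ℕ := sSup (realRanks K)

end Torus

end Pool.Agent.H250R3.Bet
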